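import Pool.Agent.Q283.FT.Stm3

/-!
# Rank zero and trivial two-torsion of the Tate-Shafarevich group (job TRV of project FT)
-/

set_option autoImplicit false

namespace Pool.Agent.Q241.FT

open NumberField IsDedekindDomain Filter Topology Finset WeierstrassCurve
open Pool.Agent.Q283.LQ (Sm Box Nest nS)
open Pool.Agent.Q7.LK
open Pool.Agent.TH841.SH.D (Coch Pt act Gal IsCoc IsCob LocTriv)
open Pool.Agent.TH841.NF.D (Sha IsShaCoc)
open Pool.Agent.Q283.FT

/-- A finitely generated abelian group is finite if and only if its rank is zero. -/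
theorem finite_iff_rank {M : Type} [AddCommGroup M] [Module.Finite ℤ M] :
    Finite M ↔ Module.finrank ℤ M = 0 := by
  rw [Module.finrank_eq_zero_iff_isTorsion]
  constructor
  · intro hf x
    have hx : IsOfFinAddOrder x := isOfFinAddOrder_of_finite x
    have hpos := hx.addOrderOf_pos
    refine ⟨⟨(addOrderOf x : ℤ), mem_nonZeroDivisors_of_ne_zero (by exact_mod_cast hpos.ne')⟩, ?_⟩
    show (addOrderOf x : ℤ) • x = 0
    rw [natCast_zsmul]
    exact addOrderOf_nsmul_eq_zero x
  · intro ht
    exact Module.finite_of_fg_torsion M ht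

theorem trv (h : S_MWR) : S_TRV := by
  intro F _ _ e he hfin
  obtain ⟨hfg, -⟩ := h F e he
  have hfr : Finite (Pt (crv e) F) ↔ Module.finrank ℤ (Pt (crv e) F) = 0 := finite_iff_rank
  have hne : Nonempty {x : Sha (crv e) // (2 : ℕ) • x = 0} := ⟨⟨0, smul_zero _⟩⟩
  rw [hfr]
  constructor
  · intro h1
    obtain ⟨h2, h3⟩ := mul_eq_one.mp h1
    have hr : Module.finrank ℤ (Pt (crv e) F) = 0 := by
      by_contra hc
      have := Nat.one_lt_two_pow hc
      omega
    refine ⟨hr, ?_⟩
    have hsub : Subsingleton {x : Sha (crv e) // (2 : ℕ) • x = 0} :=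
      (Nat.card_eq_one_iff_unique.mp h3).1
    have h0 : ∀ x : Sha (crv e), (2 : ℕ) • x = 0 → x = 0 := by
      intro x hx
      have := hsub.elim ⟨x, hx⟩ ⟨0, smul_zero _⟩
      exact congrArg Subtype.val this
    intro n
    induction n with
    | zero => intro x hx; simpa using hx
    | succ n ih =>
      intro x hx
      apply ih
      apply h0
      rw [← mul_smul, mul_comm, ← pow_succ]
      exact hx
  · rintro ⟨hr, h0⟩
    rw [hr]
    have hsub : Subsingleton {x : Sha (crv e) // (2 : ℕ) • x = 0} := by
      constructor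
      rintro ⟨x, hx⟩ ⟨y, hy⟩
      have hx0 := h0 1 x (by simpa using hx)
      have hy0 := h0 1 y (by simpa using hy)
      exact Subtype.ext (hx0.trans hy0.symm)
    have := Nat.card_unique (α := {x : Sha (crv e) // (2 : ℕ) • x = 0})
    rw [this]
    norm_num

end Pool.Agent.Q241.FT
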